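import Mathlib
import Pool.Agent.CA72.MinCE
import Pool.Agent.T3.Gal
import Pool.Agent.T3.SM

/-!
# The general reduction for classes closed under quotients

(extracted from helper23's proof for three cliques)
-/

set_option autoImplicit false

namespace Pool.Agent.T2S

open Finset Pool.Agent.CA31 Pool.Agent.CA72 Pool.Agent.CA31C Pool.Agent.T3
open scoped Classical

/-- quotient by singletons -/
theorem qg_single {V : Type} (G : SimpleGraph V) (A : Set V) :
    QG G (fun a : A => ({a.1} : Set V)) = G.induce A := by
  ext x y
  rw [QG_adj]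
  constructor
  · rintro ⟨-, u, hu, v, hv, huv⟩
    rw [Set.mem_singleton_iff] at hu hv
    rw [hu, hv] at huv
    exact huv
  · intro hxy
    exact ⟨hxy.ne, x.1, rfl, y.1, rfl, hxy⟩

theorem class_induce {P : ∀ (V : Type), SimpleGraph V → Prop}
    (hq : ∀ (V W : Type) (G : SimpleGraph V) (f : W → Set V), P V G →
      (∀ i, (G.induce (f i)).Connected) → (∀ i j, i ≠ j → Disjoint (f i) (f j)) → P W (QG G f))
    {V : Type} {G : SimpleGraph V} (h : P V G) (A : Set V) : P A (G.induce A) := by
  rw [← qg_single]
  refine hq V A G _ h (fun i => singleton_conn G i.1) (fun i j hij => ?_)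
  rw [Set.disjoint_singleton]
  exact fun e => hij (Subtype.ext e)

/-- the reduction: in a class of graphs closed under quotients by disjoint connected sets, it is
enough to find split models in contraction-critical graphs with at least `2 k + 1` vertices without
cliques of size `k + 1` -/
theorem room (P : ∀ (V : Type), SimpleGraph V → Prop)
    (hq : ∀ (V W : Type) (G : SimpleGraph V) (f : W → Set V), P V G →
      (∀ i, (G.induce (f i)).Connected) → (∀ i j, i ≠ j → Disjoint (f i) (f j)) → P W (QG G f))
    (H : ∀ (V : Type) [Fintype V] (G : SimpleGraph V) (k : ℕ), P V G → ¬ G.Colorable k → ConCrit G k →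
      2 * k + 1 ≤ Fintype.card V →
      (∀ Q : Finset V, (∀ x ∈ Q, ∀ y ∈ Q, x ≠ y → G.Adj x y) → Q.card ≤ k) → SM G k)
    (V : Type) [Fintype V] (G : SimpleGraph V) (k : ℕ) (hG : P V G) (hk : ¬ G.Colorable k) :
    SM G k := by
  suffices haux : ∀ n : ℕ, ∀ (V : Type) [Fintype V] (G : SimpleGraph V), P V G →
      Fintype.card V = n → ∀ k : ℕ, ¬ G.Colorable k → SM G k from haux _ V G hG rfl k hk
  clear hk hG
  intro n
  induction n using Nat.strong_induction_on with
  | _ n ih =>
    intro V _ G hG hn k hk
    by_contra hno
    -- quotients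
    have hcc : ConCrit G k := by
      intro W _ f hc hd hlt
      by_contra hcol
      exact hno (SM.quot hc hd (ih _ (hn ▸ hlt) W (QG G f) (hq V W G f hG hc hd) rfl k hcol))
    have hV : Nonempty V := by
      by_contra h
      have : IsEmpty V := not_nonempty_iff.1 h
      exact hk ⟨SimpleGraph.Coloring.mk (fun v => (this.false v).elim)
        (fun {u v} _ => (this.false u).elim)⟩
    have hcrit : ∀ v, (G.induce {w | w ≠ v}).Colorable k := by
      intro v
      have hlt : Fintype.card {w : V // w ≠ v} < Fintype.card V :=
        Fintype.card_subtype_lt (x := v) (by simp)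
      obtain ⟨C⟩ := hcc {w : V // w ≠ v} (fun i => {i.1}) (fun i => singleton_conn G i.1)
        (fun i j hij => by
          rw [Set.disjoint_singleton]
          exact fun e => hij (Subtype.ext e)) hlt
      refine ⟨SimpleGraph.Coloring.mk (fun w => C ⟨w.1, w.2⟩) ?_⟩
      intro u w huw
      have h1 : (QG G (fun i : {w : V // w ≠ v} => ({i.1} : Set V))).Adj ⟨u.1, u.2⟩ ⟨w.1, w.2⟩ :=
        ⟨fun e => huw.ne (Subtype.ext (Subtype.ext_iff.1 e)), u.1, rfl, w.1, rfl, huw⟩
      exact C.valid h1
    -- the complement is connected
    have hconn : Gᶜ.Preconnected := by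
      by_contra hcon
      unfold SimpleGraph.Preconnected at hcon
      push Not at hcon
      obtain ⟨u, v, huv⟩ := hcon
      set A : Set V := {w | Gᶜ.Reachable u w} with hA
      have huA : u ∈ A := SimpleGraph.Reachable.refl u
      have hvA : v ∉ A := huv
      have hjoin : ∀ a ∈ A, ∀ b ∈ Aᶜ, G.Adj a b := by
        intro a ha b hb
        by_contra h
        have hne : a ≠ b := by
          rintro rfl
          exact hb ha
        have h1 : Gᶜ.Adj a b := by
          rw [SimpleGraph.compl_adj]
          exact ⟨hne, h⟩
        exact hb (SimpleGraph.Reachable.trans ha h1.reachable)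
      have h4 : Fintype.card A < n := by
        rw [← hn]
        exact Fintype.card_subtype_lt (x := v) hvA
      have h5 : Fintype.card (Aᶜ : Set V) < n := by
        rw [← hn]
        exact Fintype.card_subtype_lt (x := u) (fun h => h huA)
      exact hno (SM.of_join hjoin ⟨u, huA⟩ ⟨v, hvA⟩
        (fun m hm => ih _ h4 A (G.induce A) (class_induce hq hG A) rfl m hm)
        (fun m hm => ih _ h5 (Aᶜ : Set V) (G.induce Aᶜ) (class_induce hq hG Aᶜ) rfl m hm) hk)
    have hgal := gallai_card hk hcrit hconn
    -- cliques
    have hcliq : ∀ K : Finset V, (∀ x ∈ K, ∀ y ∈ K, x ≠ y → G.Adj x y) → K.card ≤ k := by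
      intro K hK
      by_contra h
      obtain ⟨t, ht, htc⟩ := Finset.exists_subset_card_eq (s := K) (n := k + 1) (by omega)
      exact hno (SM.of_clique (fun hfree => hfree t ⟨fun x hx y hy hxy =>
        hK x (ht hx) y (ht hy) hxy, htc⟩))
    exact hno (H V G k hG hk hcc hgal hcliq)

/-- an injective matching avoids some vertex -/
theorem exists_further {V : Type} [Fintype V] {k : ℕ} (x y : Fin k → V)
    (hn : 2 * k + 1 ≤ Fintype.card V) : ∃ v0, (∀ i, v0 ≠ x i) ∧ ∀ i, v0 ≠ y i := by
  by_contra h
  push Not at h
  have h1 : (univ : Finset V) ⊆ univ.image x ∪ univ.image y := by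
    intro v _
    by_cases hvx : ∃ i, v = x i
    · obtain ⟨i, rfl⟩ := hvx
      exact mem_union_left _ (mem_image_of_mem _ (mem_univ _))
    · push Not at hvx
      obtain ⟨i, hi⟩ := h v hvx
      rw [hi]
      exact mem_union_right _ (mem_image_of_mem _ (mem_univ _))
  have h2 := Finset.card_le_card h1
  have h3 := Finset.card_union_le (univ.image x) (univ.image y)
  have h4 : (univ.image x).card ≤ k := Finset.card_image_le.trans (by simp)
  have h5 : (univ.image y).card ≤ k := Finset.card_image_le.trans (by simp)
  rw [Finset.card_univ] at h2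
  omega

end Pool.Agent.T2S
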