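import Mathlib
import Pool.Agent.CA72.MinCE
import Pool.Agent.T3.Gal
import Pool.Agent.T3.SM
import Pool.Agent.T3.Berge
import Pool.Agent.TF.Sep
import Pool.Agent.T2S.Count

/-!
# Clique minors in graphs with a 2-satisfiable system of paths and matchings

`Two G H`: `H` is a subgraph of `G`, any two disjoint edges of `H` are joined by an edge of `G`, and
every induced path with three vertices of `G` has an edge in `H`.
-/

set_option autoImplicit false

namespace Pool.Agent.T2S

open Finset Pool.Agent.CA31 Pool.Agent.CA72 Pool.Agent.CA31C Pool.Agent.T3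
open scoped Classical

/-- `H` is a subgraph of `G` meeting all induced paths on three vertices, and any two disjoint edges
of `H` are joined by an edge of `G` -/
def Two {V : Type} (G H : SimpleGraph V) : Prop :=
  (∀ x y, H.Adj x y → G.Adj x y) ∧
  (∀ x y z w, H.Adj x y → H.Adj z w → x ≠ z → x ≠ w → y ≠ z → y ≠ w →
    G.Adj x z ∨ G.Adj x w ∨ G.Adj y z ∨ G.Adj y w) ∧
  (∀ x y z, G.Adj x y → G.Adj y z → x ≠ z → ¬ G.Adj x z → H.Adj x y ∨ H.Adj y z)

/-- a connected set without edges of `H` is a clique -/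
theorem Two.clique {V : Type} {G H : SimpleGraph V} (h : Two G H) {X : Set V}
    (hX : (G.induce X).Connected) (hno : ∀ x ∈ X, ∀ y ∈ X, ¬ H.Adj x y) :
    ∀ x ∈ X, ∀ y ∈ X, x ≠ y → G.Adj x y := by
  have key : ∀ (a b : X) (p : (G.induce X).Walk a b), ∀ c : X, (c = a ∨ G.Adj c.1 a.1) →
      (c = b ∨ G.Adj c.1 b.1) := by
    intro a b p
    induction p with
    | nil => exact fun c hc => hc
    | @cons u v w hadj _ ih =>
      intro c hc
      apply ih
      have huv : G.Adj u.1 v.1 := hadj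
      rcases hc with rfl | hc
      · exact Or.inr huv
      · by_cases hcv : c = v
        · exact Or.inl hcv
        · right
          by_contra hn
          rcases h.2.2 c.1 u.1 v.1 hc huv (fun e => hcv (Subtype.ext e)) hn with h1 | h1
          · exact hno _ c.2 _ u.2 h1
          · exact hno _ u.2 _ v.2 h1
  intro x hx y hy hxy
  obtain ⟨p⟩ := hX.preconnected ⟨x, hx⟩ ⟨y, hy⟩
  rcases key _ _ p ⟨x, hx⟩ (Or.inl rfl) with h1 | h1
  · exact absurd (Subtype.ext_iff.1 h1) hxy
  · exact h1

theorem Two.induce {V : Type} {G H : SimpleGraph V} (h : Two G H) (A : Set V) :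
    Two (G.induce A) (H.induce A) :=
  ⟨fun x y hxy => h.1 x.1 y.1 hxy,
    fun x y z w h1 h2 h5 h6 h7 h8 => h.2.1 x.1 y.1 z.1 w.1 h1 h2
      (fun e => h5 (Subtype.ext e)) (fun e => h6 (Subtype.ext e)) (fun e => h7 (Subtype.ext e))
      (fun e => h8 (Subtype.ext e)),
    fun x y z h1 h2 h3 h4 => h.2.2 x.1 y.1 z.1 h1 h2 (fun e => h3 (Subtype.ext e)) h4⟩

/-- the edges of the quotient whose two bags contain an edge of `H` -/
def QH {V W : Type} (G H : SimpleGraph V) (f : W → Set V) : SimpleGraph W where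
  Adj i j := (QG G f).Adj i j ∧ ∃ x ∈ f i ∪ f j, ∃ y ∈ f i ∪ f j, H.Adj x y
  symm := ⟨fun i j h => ⟨h.1.symm, by rw [Set.union_comm]; exact h.2⟩⟩
  loopless := ⟨fun i h => h.1.ne rfl⟩

theorem Two.quot {V W : Type} {G H : SimpleGraph V} (h : Two G H) {f : W → Set V}
    (hc : ∀ i, (G.induce (f i)).Connected) (hd : ∀ i j, i ≠ j → Disjoint (f i) (f j)) :
    Two (QG G f) (QH G H f) := by
  have hne : ∀ i j, i ≠ j → ∀ x ∈ f i, ∀ y ∈ f j, x ≠ y := by
    intro i j hij x hx y hy e
    exact Set.disjoint_left.1 (hd i j hij) hx (e ▸ hy)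
  refine ⟨fun i j hij => hij.1, ?_, ?_⟩
  · rintro i j l m ⟨hij, x, hx, y, hy, hxy⟩ ⟨hlm, z, hz, w, hw, hzw⟩ h1 h2 h3 h4
    have hdis : ∀ a ∈ f i ∪ f j, ∀ b ∈ f l ∪ f m, a ≠ b := by
      rintro a (ha | ha) b (hb | hb)
      · exact hne i l h1 a ha b hb
      · exact hne i m h2 a ha b hb
      · exact hne j l h3 a ha b hb
      · exact hne j m h4 a ha b hb
    have hadj : ∃ a ∈ f i ∪ f j, ∃ b ∈ f l ∪ f m, G.Adj a b := by
      rcases h.2.1 x y z w hxy hzw (hdis x hx z hz) (hdis x hx w hw) (hdis y hy z hz)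
        (hdis y hy w hw) with h | h | h | h
      · exact ⟨x, hx, z, hz, h⟩
      · exact ⟨x, hx, w, hw, h⟩
      · exact ⟨y, hy, z, hz, h⟩
      · exact ⟨y, hy, w, hw, h⟩
    obtain ⟨a, ha | ha, b, hb | hb, hab⟩ := hadj
    · exact Or.inl ⟨h1, a, ha, b, hb, hab⟩
    · exact Or.inr (Or.inl ⟨h2, a, ha, b, hb, hab⟩)
    · exact Or.inr (Or.inr (Or.inl ⟨h3, a, ha, b, hb, hab⟩))
    · exact Or.inr (Or.inr (Or.inr ⟨h4, a, ha, b, hb, hab⟩))
  · intro i j l hij hjl hil hnil
    by_contra hcon
    push Not at hcon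
    obtain ⟨hc1, hc2⟩ := hcon
    have cl : ∀ i j, (QG G f).Adj i j → ¬ (QH G H f).Adj i j → ∀ x ∈ f i, ∀ y ∈ f j, G.Adj x y := by
      intro i j hij hn x hx y hy
      have hconn : (G.induce (f i ∪ f j)).Connected := by
        obtain ⟨-, u, hu, v, hv, huv⟩ := hij
        exact conn_two (hc i) (hc j) ⟨u, hu, v, hv, huv⟩
      refine h.clique hconn (fun a ha b hb hab => hn ⟨hij, a, ha, b, hb, hab⟩) x (Or.inl hx) y
        (Or.inr hy) (hne i j ?_ x hx y hy)
      exact hij.ne
    obtain ⟨x, hx⟩ := (hc i).nonempty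
    obtain ⟨y, hy⟩ := (hc j).nonempty
    obtain ⟨z, hz⟩ := (hc l).nonempty
    rcases h.2.2 x y z (cl i j hij hc1 x hx y hy) (cl j l hjl hc2 y hy z hz)
      (hne i l hil x hx z hz) (fun hxz => hnil ⟨hil, x, hx, z, hz, hxz⟩) with h1 | h1
    · exact hc1 ⟨hij, x, Or.inl hx, y, Or.inr hy, h1⟩
    · exact hc2 ⟨hjl, y, Or.inl hy, z, Or.inr hz, h1⟩

/-- in the class all separators of a contraction-critical graph are large -/
theorem Two.sep {V : Type} [Fintype V] {G H : SimpleGraph V} (h : Two G H) {k : ℕ}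
    (hnc : ¬ G.Colorable k) (hcc : ConCrit G k) (A B : Finset V) (hAB : Disjoint A B)
    (hA : A.Nonempty) (hB : B.Nonempty) (hno : ∀ a ∈ A, ∀ b ∈ B, ¬ G.Adj a b) :
    k + 1 ≤ (univ \ (A ∪ B)).card := by
  -- the case in which `A` has no edge of `H`
  have main : ∀ A B : Finset V, Disjoint A B → A.Nonempty → B.Nonempty →
      (∀ a ∈ A, ∀ b ∈ B, ¬ G.Adj a b) → (∀ x ∈ A, ∀ y ∈ A, ¬ H.Adj x y) →
      k + 1 ≤ (univ \ (A ∪ B)).card := by
    intro A B hAB hA hB hno hin
    obtain ⟨a, ha⟩ := hA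
    let A0 : Finset V := A.filter (fun x => x = a ∨ G.Adj a x)
    have hA0 : ∀ x ∈ A0, x ∈ A ∧ (x = a ∨ G.Adj a x) := fun x hx => mem_filter.1 hx
    have hS : univ \ (A0 ∪ ((A \ A0) ∪ B)) = univ \ (A ∪ B) := by
      ext v
      simp only [mem_sdiff, mem_univ, true_and, mem_union]
      constructor
      · intro h1 h2
        apply h1
        by_cases h3 : v ∈ A0
        · exact Or.inl h3
        · rcases h2 with h2 | h2
          · exact Or.inr (Or.inl ⟨h2, h3⟩)
          · exact Or.inr (Or.inr h2)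
      · rintro h1 (h2 | h2 | h2)
        · exact h1 (Or.inl (hA0 v h2).1)
        · exact h1 (Or.inl h2.1)
        · exact h1 (Or.inr h2)
    rw [← hS]
    have hABd : ∀ x ∈ A, x ∉ B := fun x hx => Finset.disjoint_left.1 hAB hx
    refine TF.sep_clique hnc hcc (A := A0) (B := (A \ A0) ∪ B) ?_ ?_ ?_ ?_
      ⟨a, mem_filter.2 ⟨ha, Or.inl rfl⟩⟩ ?_ ?_ ?_
    · rw [Finset.disjoint_left]
      intro x hx hx'
      rcases mem_union.1 hx' with h1 | h1
      · exact (mem_sdiff.1 h1).2 hx
      · exact hABd x (hA0 x hx).1 h1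
    · rw [Finset.disjoint_left]
      intro x hx hx'
      exact (mem_sdiff.1 hx').2 (mem_union_left _ hx)
    · rw [Finset.disjoint_left]
      intro x hx hx'
      exact (mem_sdiff.1 hx').2 (mem_union_right _ hx)
    · intro v
      simp only [mem_sdiff, mem_univ, true_and, mem_union]
      tauto
    · obtain ⟨b, hb⟩ := hB
      exact ⟨b, mem_union_right _ hb⟩
    · intro x hx y hy hxy
      rcases mem_union.1 hy with h1 | h1
      · obtain ⟨h2, h3⟩ := mem_sdiff.1 h1
        have h3' : ¬ (y = a ∨ G.Adj a y) := fun h' => h3 (mem_filter.2 ⟨h2, h'⟩)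
        push Not at h3'
        rcases (hA0 x hx).2 with rfl | h4
        · exact h3'.2 hxy
        · rcases h.2.2 a x y h4 hxy (fun e => h3'.1 e.symm) h3'.2 with h5 | h5
          · exact hin a ha x (hA0 x hx).1 h5
          · exact hin x (hA0 x hx).1 y h2 h5
      · exact hno x (hA0 x hx).1 y h1 hxy
    · intro x hx y hy hxy
      obtain ⟨hxA, hx'⟩ := hA0 x hx
      obtain ⟨hyA, hy'⟩ := hA0 y hy
      rcases hx' with rfl | hx'
      · rcases hy' with rfl | hy'
        · exact absurd rfl hxy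
        · exact hy'
      · rcases hy' with rfl | hy'
        · exact hx'.symm
        · by_contra hn
          rcases h.2.2 x a y hx'.symm hy' hxy hn with h5 | h5
          · exact hin x hxA a ha h5
          · exact hin a ha y hyA h5
  by_cases hinA : ∀ x ∈ A, ∀ y ∈ A, ¬ H.Adj x y
  · exact main A B hAB hA hB hno hinA
  · push Not at hinA
    obtain ⟨x, hx, y, hy, hxy⟩ := hinA
    have h1 := main B A hAB.symm hB hA (fun b hb a ha hab => hno a ha b hb hab.symm) (by
      intro z hz w hw hzw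
      have hd : ∀ a ∈ A, ∀ b ∈ B, a ≠ b := fun a ha b hb e => Finset.disjoint_left.1 hAB ha (e ▸ hb)
      rcases h.2.1 x y z w hxy hzw (hd x hx z hz) (hd x hx w hw) (hd y hy z hz) (hd y hy w hw)
        with h | h | h | h
      · exact hno x hx z hz h
      · exact hno x hx w hw h
      · exact hno y hy z hz h
      · exact hno y hy w hw h)
    rwa [union_comm] at h1

/-- the key lemma: in a graph `K` of edges between different labels in which two neighbours of a
vertex are adjacent in `G`, and adjacent in `K` if they have different labels, a component with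
three labels is a clique of `G` -/
theorem comp_clique {V I : Type} {G K : SimpleGraph V} (comp : V → I)
    (hK : ∀ x y, K.Adj x y → comp x ≠ comp y)
    (h1 : ∀ x y z, K.Adj x y → K.Adj y z → x ≠ z → G.Adj x z)
    (h2 : ∀ x y z, K.Adj x y → K.Adj y z → comp x ≠ comp z → K.Adj x z)
    (hKG : ∀ x y, K.Adj x y → G.Adj x y)
    {a b c : V} (hab : comp a ≠ comp b) (hac : comp a ≠ comp c) (hbc : comp b ≠ comp c)
    (hrab : K.Reachable a b) (hrac : K.Reachable a c)
    {x y : V} (hx : K.Reachable a x) (hy : K.Reachable a y) (hxy : x ≠ y) : G.Adj x y := by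
  -- every vertex of the component has a neighbour with a label different from a given one
  have rich : ∀ w, K.Reachable a w → ∀ l : I, ∃ w', K.Adj w w' ∧ comp w' ≠ l := by
    intro w hw l
    by_contra hcon
    push Not at hcon
    have key : ∀ (u v : V) (p : K.Walk u v), ((comp u = comp w ∨ comp u = l) ∧
        ∀ u', K.Adj u u' → comp u' = comp w ∨ comp u' = l) →
        ((comp v = comp w ∨ comp v = l) ∧ ∀ u', K.Adj v u' → comp u' = comp w ∨ comp u' = l) := by
      intro u v p
      induction p with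
      | nil => exact fun h => h
      | @cons u v _ hadj _ ih =>
        intro hu
        refine ih ⟨hu.2 v hadj, fun u' hu' => ?_⟩
        by_cases h : comp u = comp u'
        · rw [← h]; exact hu.1
        · exact hu.2 u' (h2 u v u' hadj hu' h)
    have key2 : ∀ v, K.Reachable a v → comp v = comp w ∨ comp v = l := by
      intro v hv
      obtain ⟨p⟩ := hw.symm.trans hv
      exact (key _ _ p ⟨Or.inl rfl, fun u' hu' => Or.inr (hcon u' hu')⟩).1
    have ha := key2 a (SimpleGraph.Reachable.refl _)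
    have hb := key2 b hrab
    have hc := key2 c hrac
    rcases ha with ha | ha <;> rcases hb with hb | hb <;> rcases hc with hc | hc
    · exact hab (ha.trans hb.symm)
    · exact hab (ha.trans hb.symm)
    · exact hac (ha.trans hc.symm)
    · exact hbc (hb.trans hc.symm)
    · exact hbc (hb.trans hc.symm)
    · exact hac (ha.trans hc.symm)
    · exact hab (ha.trans hb.symm)
    · exact hab (ha.trans hb.symm)
  have key : ∀ (u v : V) (p : K.Walk u v), K.Reachable a u →
      ((comp u ≠ comp x → K.Adj x u) ∧ (comp u = comp x → ∃ z, K.Adj x z ∧ K.Adj z u)) →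
      ((comp v ≠ comp x → K.Adj x v) ∧ (comp v = comp x → ∃ z, K.Adj x z ∧ K.Adj z v)) := by
    intro u v p
    induction p with
    | nil => exact fun _ h => h
    | @cons w v _ hadj _ ih =>
      intro hw hI
      refine ih (hw.trans hadj.reachable) ?_
      by_cases hwx : comp w = comp x
      · obtain ⟨z, hz1, hz2⟩ := hI.2 hwx
        have hvx : comp v ≠ comp x := by
          rw [← hwx]
          exact (hK w v hadj).symm
        refine ⟨fun _ => ?_, fun h => absurd h hvx⟩
        by_cases hzv : comp z = comp v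
        · obtain ⟨w', hw1, hw2⟩ := rich w hw (comp v)
          have e1 : K.Adj w' z := h2 w' w z hw1.symm hz2.symm (by rw [hzv]; exact hw2)
          have e2 : K.Adj x w' := h2 x z w' hz1 e1.symm (by rw [← hwx]; exact hK w w' hw1)
          have e3 : K.Adj w' v := h2 w' w v hw1.symm hadj hw2
          exact h2 x w' v e2 e3 hvx.symm
        · exact h2 x z v hz1 (h2 z w v hz2 hadj hzv) hvx.symm
      · have hxw := hI.1 hwx
        refine ⟨fun h => ?_, fun h => ⟨w, hxw, hadj⟩⟩
        exact h2 x w v hxw hadj h.symm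
  obtain ⟨p⟩ := hx.symm.trans hy
  obtain ⟨z, hz, -⟩ := rich x hx (comp x)
  have hI := key _ _ p hx ⟨fun h => absurd rfl h, fun _ => ⟨z, hz, hz.symm⟩⟩
  by_cases h : comp y = comp x
  · obtain ⟨z, hz1, hz2⟩ := hI.2 h
    exact h1 x z y hz1 hz2 hxy
  · exact hKG _ _ (hI.1 h)

/-- three nonempty parts -/
theorem three_parts {V I : Type} [Fintype V] [Fintype I] (U : Finset V) (comp : V → I) {k : ℕ}
    (hn : 2 * k + 1 ≤ Fintype.card V)
    (hU : U.card + ∑ i, (univ.filter (fun v => v ∉ U ∧ comp v = i)).card / 2 < k) :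
    ∃ a b c : V, (a ∉ U ∧ b ∉ U ∧ c ∉ U) ∧ comp a ≠ comp b ∧ comp a ≠ comp c ∧ comp b ≠ comp c := by
  let n : I → ℕ := fun i => (univ.filter (fun v => v ∉ U ∧ comp v = i)).card
  have hVU : Fintype.card V = U.card + ∑ i, n i := by
    have h1 : (univ.filter (fun v => v ∉ U)).card = ∑ i, n i := by
      rw [Finset.card_eq_sum_card_fiberwise (f := comp) (t := univ) (fun _ _ => mem_univ _)]
      apply Finset.sum_congr rfl
      intro i _
      show _ = (univ.filter (fun v => v ∉ U ∧ comp v = i)).card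
      congr 1
      ext v
      simp
    have h2 : (univ.filter (fun v => v ∉ U)).card = Fintype.card V - U.card := by
      rw [← card_compl]
      congr 1
      ext v
      simp
    have h4 := card_le_univ U
    omega
  have hpar : ∑ i, n i ≤ 2 * ∑ i, n i / 2 + (univ.filter (fun i => Odd (n i))).card := by
    rw [Finset.card_filter, Finset.mul_sum, ← Finset.sum_add_distrib]
    refine Finset.sum_le_sum (fun i _ => ?_)
    by_cases ho : Odd (n i)
    · rw [if_pos ho]
      omega
    · rw [if_neg ho]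
      have := Nat.even_iff.1 (Nat.not_odd_iff_even.1 ho)
      omega
  have h3 : 2 < (univ.filter (fun i => Odd (n i))).card := by
    have : U.card + ∑ i, n i / 2 < k := hU
    omega
  obtain ⟨i, hi, j, hj, l, hl, hij, hil, hjl⟩ := Finset.two_lt_card.1 h3
  have hex : ∀ i, i ∈ univ.filter (fun i => Odd (n i)) → ∃ v, v ∉ U ∧ comp v = i := by
    intro i hi
    have h := (mem_filter.1 hi).2.pos
    obtain ⟨v, hv⟩ := card_pos.1 h
    exact ⟨v, (mem_filter.1 hv).2⟩
  obtain ⟨a, ha, ha'⟩ := hex i hi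
  obtain ⟨b, hb, hb'⟩ := hex j hj
  obtain ⟨c, hc, hc'⟩ := hex l hl
  exact ⟨a, b, c, ⟨ha, hb, hc⟩, by rw [ha', hb']; exact hij, by rw [ha', hc']; exact hil,
    by rw [hb', hc']; exact hjl⟩

/-- the matching lemma -/
theorem two_matching {V : Type} [Fintype V] {G H : SimpleGraph V} {k : ℕ}
    (h2 : ∀ x y z, G.Adj x y → G.Adj y z → x ≠ z → ¬ G.Adj x z → H.Adj x y ∨ H.Adj y z)
    (hsep : ∀ A B : Finset V, Disjoint A B → A.Nonempty → B.Nonempty → (∀ a ∈ A, ∀ b ∈ B, ¬ G.Adj a b) →
      k + 1 ≤ (univ \ (A ∪ B)).card)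
    (hcliq : ∀ Q : Finset V, (∀ x ∈ Q, ∀ y ∈ Q, x ≠ y → G.Adj x y) → k + 1 ≤ (univ \ Q).card)
    (hn : 2 * k + 1 ≤ Fintype.card V) :
    ∃ x y : Fin k → V, Function.Injective x ∧ Function.Injective y ∧ (∀ i j, x i ≠ y j) ∧
      ∀ i, H.Adj (x i) (y i) := by
  obtain ⟨x, y, h1, h2, h3⟩ := berge H k (by omega) (fun U I _ comp hno => by
    by_contra hcon
    -- the graph of the edges between different parts
    let K : SimpleGraph V :=
      { Adj := fun u v => (u ∉ U ∧ v ∉ U) ∧ comp u ≠ comp v ∧ G.Adj u v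
        symm := ⟨fun u v h => ⟨⟨h.1.2, h.1.1⟩, h.2.1.symm, h.2.2.symm⟩⟩
        loopless := ⟨fun u h => h.2.1 rfl⟩ }
    have hK1 : ∀ x y z, K.Adj x y → K.Adj y z → x ≠ z → G.Adj x z := by
      intro x y z hxy hyz hxz
      by_contra hn
      rcases h2 x y z hxy.2.2 hyz.2.2 hxz hn with h | h
      · exact hno x y hxy.1.1 hxy.1.2 hxy.2.1 h
      · exact hno y z hyz.1.1 hyz.1.2 hyz.2.1 h
    have hK2 : ∀ x y z, K.Adj x y → K.Adj y z → comp x ≠ comp z → K.Adj x z := by
      intro x y z hxy hyz hxz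
      exact ⟨⟨hxy.1.1, hyz.1.2⟩, hxz, hK1 x y z hxy hyz (fun e => hxz (by rw [e]))⟩
    obtain ⟨a, b, c, ⟨ha, hb, hc⟩, hab, hac, hbc⟩ := three_parts U comp hn (by omega)
    refine count (G := G) (fun v => K.connectedComponentMk v) (k := k) U comp
      (fun u v hu hv hc' hcl' hadj => hcl' ?_) hsep ?_ (by omega) (by omega)
    · exact SimpleGraph.ConnectedComponent.sound
        (SimpleGraph.Adj.reachable (show K.Adj u v from ⟨⟨hu, hv⟩, hc', hadj⟩))
    · intro D hD
      obtain ⟨a', ha1, ha2, ha3⟩ := hD a ha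
      obtain ⟨b', hb1, hb2, hb3⟩ := hD b hb
      obtain ⟨c', hc1, hc2, hc3⟩ := hD c hc
      have h4 := hcliq (univ.filter (fun v => K.connectedComponentMk v = D)) (by
        intro x hx y hy hxy
        have hx' := (mem_filter.1 hx).2
        have hy' := (mem_filter.1 hy).2
        exact comp_clique (K := K) comp (fun x y h => h.2.1) hK1 hK2 (fun x y h => h.2.2)
          (a := a') (b := b') (c := c')
          (by rw [ha2, hb2]; exact hab) (by rw [ha2, hc2]; exact hac) (by rw [hb2, hc2]; exact hbc)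
          (SimpleGraph.ConnectedComponent.exact (ha3.trans hb3.symm))
          (SimpleGraph.ConnectedComponent.exact (ha3.trans hc3.symm))
          (SimpleGraph.ConnectedComponent.exact (ha3.trans hx'.symm))
          (SimpleGraph.ConnectedComponent.exact (ha3.trans hy'.symm)) hxy)
      refine h4.trans (le_of_eq ?_)
      congr 1
      ext v
      simp)
  refine ⟨x, y, ?_, ?_, h3, h1⟩
  · intro i j hij
    by_contra hne
    exact (h2 i j hne).1 hij
  · intro i j hij
    by_contra hne
    exact (h2 i j hne).2 hij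

end Pool.Agent.T2S
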