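import Mathlib
import Pool.Agent.T2S.Main
import Pool.Agent.T2S.Room

/-!
# The main theorem for the 2-SAT class
-/

set_option autoImplicit false

namespace Pool.Agent.T2S

open Finset Pool.Agent.CA31 Pool.Agent.CA72 Pool.Agent.CA31C Pool.Agent.T3
open scoped Classical

/-- every graph in the class which is not `k`-colourable has a split model of `K_k` -/
theorem main {V : Type} [Fintype V] {G H : SimpleGraph V} (h : Two G H) {k : ℕ}
    (hk : ¬ G.Colorable k) : SM G k := by
  refine room (fun V G => ∃ H : SimpleGraph V, Two G H) ?_ ?_ V G k ⟨H, h⟩ hk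
  · rintro V W G f ⟨H, h⟩ hc hd
    exact ⟨QH G H f, h.quot hc hd⟩
  · rintro V _ G k ⟨H, h⟩ hk hcc hn hcliq
    obtain ⟨x, y, hx, hy, hxy, hadj⟩ := two_matching h.2.2 (h.sep hk hcc) (fun Q hQ => by
      have h1 := hcliq Q hQ
      have h2 : (univ \ Q).card = Fintype.card V - Q.card := by
        rw [← card_compl]; rfl
      omega) hn
    obtain ⟨v0, hv1, hv2⟩ := exists_further x y hn
    refine SM.of_edges x y v0 (fun i => h.1 _ _ (hadj i)) (fun i j hij e => hij (hx e))
      (fun i j hij e => hij (hy e)) hxy (fun i e => hv1 i e.symm) (fun i e => hv2 i e.symm) ?_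
    intro i j hij
    exact h.2.1 (x i) (y i) (x j) (y j) (hadj i) (hadj j)
      (fun e => hij (hx e)) (hxy i j) (fun e => hxy j i e.symm) (fun e => hij (hy e))

end Pool.Agent.T2S
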